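import Pool.Agent.Helper10_BAN.Stmt

/-!
Squad BAN, module FINN (helper37): normed space version.
-/

set_option autoImplicit false

namespace Pool.Agent.BAN.H37

open MeasureTheory Filter Topology Set Pool.Agent.BAN

theorem finn (hM : MAINXStmt) : FINNStmt := by
  intro 𝕜 _ E _ _ k hk hfin hH x y
  have hfd : FiniteDimensional 𝕜 E := FiniteDimensional.of_finrank_pos (by omega)
  let T : EuclideanSpace 𝕜 (Fin (k + 1)) ≃ₗ[𝕜] E :=
    LinearEquiv.ofFinrankEq _ _ (by rw [finrank_euclideanSpace_fin, hfin])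
  let Φ : Seminorm 𝕜 (EuclideanSpace 𝕜 (Fin (k + 1))) :=
    (normSeminorm 𝕜 E).comp (T : EuclideanSpace 𝕜 (Fin (k + 1)) →ₗ[𝕜] E)
  have hΦ : ∀ z, Φ z = ‖T z‖ := fun z => rfl
  have hpos : ∀ z, z ≠ 0 → 0 < Φ z := by
    intro z hz
    rw [hΦ, norm_pos_iff]
    exact fun h => hz ((LinearEquiv.map_eq_zero_iff T).1 h)
  have hiso : ∀ H₁ H₂ : Submodule 𝕜 (EuclideanSpace 𝕜 (Fin (k + 1))),
      Module.finrank 𝕜 H₁ = k → Module.finrank 𝕜 H₂ = k →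
      ∃ g : H₁ ≃ₗ[𝕜] H₂, ∀ z : H₁, Φ (g z : EuclideanSpace 𝕜 (Fin (k + 1))) = Φ z := by
    intro H₁ H₂ h1 h2
    have f1 : Module.finrank 𝕜 (H₁.map (T : EuclideanSpace 𝕜 (Fin (k + 1)) →ₗ[𝕜] E)) = k := by
      rw [LinearEquiv.finrank_map_eq, h1]
    have f2 : Module.finrank 𝕜 (H₂.map (T : EuclideanSpace 𝕜 (Fin (k + 1)) →ₗ[𝕜] E)) = k := by
      rw [LinearEquiv.finrank_map_eq, h2]
    obtain ⟨j⟩ := hH _ _ f1 f2
    refine ⟨(T.submoduleMap H₁).trans (j.toLinearEquiv.trans (T.submoduleMap H₂).symm), fun z => ?_⟩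
    rw [hΦ, hΦ]
    have e1 : T ((((T.submoduleMap H₁).trans (j.toLinearEquiv.trans (T.submoduleMap H₂).symm)) z :
        H₂) : EuclideanSpace 𝕜 (Fin (k + 1)))
        = ((j ((T.submoduleMap H₁) z) : H₂.map (T : EuclideanSpace 𝕜 (Fin (k + 1)) →ₗ[𝕜] E)) : E) := by
      have h3 := LinearEquiv.submoduleMap_apply T H₂
        ((T.submoduleMap H₂).symm (j ((T.submoduleMap H₁) z)))
      rw [LinearEquiv.apply_symm_apply] at h3
      exact h3.symm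
    rw [e1]
    have e2 : ‖((j ((T.submoduleMap H₁) z) : H₂.map (T : EuclideanSpace 𝕜 (Fin (k + 1)) →ₗ[𝕜] E)) : E)‖
        = ‖(T.submoduleMap H₁) z‖ := j.norm_map _
    rw [e2]
    rfl
  have h := hM 𝕜 k hk Φ hpos hiso (T.symm x) (T.symm y)
  rw [hΦ, hΦ, hΦ, hΦ, map_add, map_sub, LinearEquiv.apply_symm_apply,
    LinearEquiv.apply_symm_apply] at h
  nlinarith [h]

end Pool.Agent.BAN.H37
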