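import Pool.Agent.Helper10_BAN.Stmt

/-!
Squad BAN, module NP (helper37): the nearest point map of a closed group of isometries.
-/

set_option autoImplicit false

namespace Pool.Agent.BAN.H37

open MeasureTheory Filter Topology Set Pool.Agent.BAN

variable {𝕜 : Type} [RCLike 𝕜] {V : Type} [NormedAddCommGroup V] [InnerProductSpace 𝕜 V]
  [FiniteDimensional 𝕜 V]

lemma hs_comm (A B : V →L[𝕜] V) : hs A B = hs B A := by
  unfold hs
  refine Finset.sum_congr rfl fun i _ => ?_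
  rw [← inner_conj_symm, RCLike.conj_re]

lemma hs_sub_right (A B C : V →L[𝕜] V) : hs A (B - C) = hs A B - hs A C := by
  unfold hs
  rw [← Finset.sum_sub_distrib]
  refine Finset.sum_congr rfl fun i _ => ?_
  rw [_root_.sub_apply, inner_sub_right, map_sub]

lemma hs_sub_left (A B C : V →L[𝕜] V) : hs (A - B) C = hs A C - hs B C := by
  rw [hs_comm, hs_sub_right, hs_comm C A, hs_comm C B]

lemma hs_abs_le (A B : V →L[𝕜] V) :
    |hs A B| ≤ Module.finrank 𝕜 V * (‖A‖ * ‖B‖) := by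
  unfold hs
  refine (Finset.abs_sum_le_sum_abs _ _).trans ?_
  have h : ∀ i ∈ (Finset.univ : Finset (Fin (Module.finrank 𝕜 V))),
      |RCLike.re (inner 𝕜 (A (stdOrthonormalBasis 𝕜 V i)) (B (stdOrthonormalBasis 𝕜 V i)))|
        ≤ ‖A‖ * ‖B‖ := by
    intro i _
    refine (RCLike.abs_re_le_norm _).trans ((norm_inner_le_norm _ _).trans ?_)
    have h1 : ‖A (stdOrthonormalBasis 𝕜 V i)‖ ≤ ‖A‖ := by
      have := A.le_opNorm (stdOrthonormalBasis 𝕜 V i)
      rwa [(stdOrthonormalBasis 𝕜 V).norm_eq_one, mul_one] at this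
    have h2 : ‖B (stdOrthonormalBasis 𝕜 V i)‖ ≤ ‖B‖ := by
      have := B.le_opNorm (stdOrthonormalBasis 𝕜 V i)
      rwa [(stdOrthonormalBasis 𝕜 V).norm_eq_one, mul_one] at this
    exact mul_le_mul h1 h2 (norm_nonneg _) (norm_nonneg _)
  refine (Finset.sum_le_sum h).trans ?_
  simp

lemma hs_self (A : V →L[𝕜] V) :
    hs A A = ∑ i, ‖A (stdOrthonormalBasis 𝕜 V i)‖ ^ 2 := by
  unfold hs
  refine Finset.sum_congr rfl fun i _ => ?_
  rw [inner_self_eq_norm_sq_to_K]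
  norm_cast

lemma hs_self_nonneg (A : V →L[𝕜] V) : 0 ≤ hs A A := by
  rw [hs_self]; positivity

lemma norm_sq_le_hs (A : V →L[𝕜] V) : ‖A‖ ^ 2 ≤ hs A A := by
  have h0 := hs_self_nonneg A
  have h : ‖A‖ ≤ Real.sqrt (hs A A) := by
    refine A.opNorm_le_bound (Real.sqrt_nonneg _) fun v => ?_
    have e : A v = ∑ i, inner 𝕜 (stdOrthonormalBasis 𝕜 V i) v • A (stdOrthonormalBasis 𝕜 V i) := by
      conv_lhs => rw [← (stdOrthonormalBasis 𝕜 V).sum_repr' v]
      rw [map_sum]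
      exact Finset.sum_congr rfl fun i _ => by rw [map_smul]
    rw [e]
    refine (norm_sum_le _ _).trans ?_
    simp_rw [norm_smul]
    refine (Real.sum_mul_le_sqrt_mul_sqrt _ _ _).trans ?_
    rw [(stdOrthonormalBasis 𝕜 V).sum_sq_norm_inner_right v, Real.sqrt_sq (norm_nonneg _),
      ← hs_self, mul_comm]
  calc ‖A‖ ^ 2 ≤ Real.sqrt (hs A A) ^ 2 := by gcongr
    _ = hs A A := Real.sq_sqrt h0

omit [FiniteDimensional 𝕜 V] in
lemma re_inner_map {g : V →L[𝕜] V} (hg : ∀ v, ‖g v‖ = ‖v‖) (x y : V) :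
    RCLike.re (inner 𝕜 (g x) (g y)) = RCLike.re (inner 𝕜 x y) := by
  rw [re_inner_eq_norm_add_mul_self_sub_norm_mul_self_sub_norm_mul_self_div_two,
    re_inner_eq_norm_add_mul_self_sub_norm_mul_self_sub_norm_mul_self_div_two,
    ← map_add, hg, hg, hg]

lemma hs_mul {g : V →L[𝕜] V} (hg : ∀ v, ‖g v‖ = ‖v‖) (A B : V →L[𝕜] V) :
    hs (g * A) (g * B) = hs A B := by
  unfold hs
  refine Finset.sum_congr rfl fun i _ => ?_
  exact re_inner_map hg _ _

lemma hs_iso {g : V →L[𝕜] V} (hg : ∀ v, ‖g v‖ = ‖v‖) : hs g g = Module.finrank 𝕜 V := by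
  rw [hs_self]
  simp [hg, (stdOrthonormalBasis 𝕜 V).norm_eq_one]

omit [FiniteDimensional 𝕜 V] in
lemma norm_iso_le {g : V →L[𝕜] V} (hg : ∀ v, ‖g v‖ = ‖v‖) : ‖g‖ ≤ 1 :=
  g.opNorm_le_bound zero_le_one fun v => by rw [hg, one_mul]

omit [FiniteDimensional 𝕜 V] in
lemma norm_mul_le' {g : V →L[𝕜] V} (hg : ∀ v, ‖g v‖ = ‖v‖) (A : V →L[𝕜] V) :
    ‖g * A‖ ≤ ‖A‖ := by
  refine (norm_mul_le _ _).trans ?_
  have := norm_iso_le hg
  nlinarith [norm_nonneg A]

lemma hs_cont (C : V →L[𝕜] V) : Continuous fun A : V →L[𝕜] V => hs C A := by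
  unfold hs
  refine continuous_finsetSum _ fun i _ => ?_
  refine RCLike.continuous_re.comp ?_
  refine continuous_const.inner ?_
  exact (ContinuousLinearMap.apply 𝕜 V (stdOrthonormalBasis 𝕜 V i)).continuous

lemma compact_K {K : Set (V →L[𝕜] V)} (hK : CGrp K) : IsCompact K := by
  have : ProperSpace (V →L[𝕜] V) := FiniteDimensional.proper 𝕜 (V →L[𝕜] V)
  refine Metric.isCompact_of_isClosed_isBounded hK.closed ?_
  refine (Metric.isBounded_closedBall (x := (0 : V →L[𝕜] V)) (r := 1)).subset ?_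
  intro g hg
  rw [mem_closedBall_zero_iff]
  exact norm_iso_le (hK.iso g hg)

lemma exists_max {K : Set (V →L[𝕜] V)} (hK : CGrp K) (C : V →L[𝕜] V) :
    ∃ k ∈ K, ∀ κ ∈ K, hs C κ ≤ hs C k := by
  obtain ⟨k, hk, hm⟩ := (compact_K hK).exists_isMaxOn ⟨1, hK.one⟩ (hs_cont C).continuousOn
  exact ⟨k, hk, fun κ hκ => hm hκ⟩

theorem np (hQG : QGStmt) : NPStmt := by
  intro 𝕜 _ V _ _ _ K hK
  obtain ⟨r0, c, hr0, hc, hQ⟩ := hQG 𝕜 V K hK
  choose kh khK khm using exists_max hK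
  set n : ℝ := (Module.finrank 𝕜 V : ℝ) with hn
  have hn0 : 0 ≤ n := by positivity
  set r : ℝ := r0 / (n + 1) with hr
  have hrpos : 0 < r := by positivity
  have key : ∀ C, Near K r C → ∀ k ∈ K, (∀ κ ∈ K, hs C κ ≤ hs C k) → ∀ κ ∈ K,
      c * ‖k - κ‖ ^ 2 ≤ hs C (k - κ) := by
    intro C hC k hk hmax κ hκ
    obtain ⟨κ0, hκ0, hCκ0⟩ := hC
    obtain ⟨g, hg, hgk, hkg⟩ := hK.inv k hk
    have e1 : hs (C - k) (C - k) ≤ hs (C - κ0) (C - κ0) := by
      rw [hs_sub_left, hs_sub_right, hs_sub_right, hs_sub_left, hs_sub_right, hs_sub_right,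
        hs_comm k C, hs_comm κ0 C, hs_iso (hK.iso k hk), hs_iso (hK.iso κ0 hκ0)]
      have := hmax κ0 hκ0
      linarith
    have e2 : hs (C - κ0) (C - κ0) ≤ n * r ^ 2 := by
      refine (le_abs_self _).trans ((hs_abs_le _ _).trans ?_)
      have : ‖C - κ0‖ * ‖C - κ0‖ ≤ r ^ 2 := by nlinarith [norm_nonneg (C - κ0)]
      exact mul_le_mul_of_nonneg_left this hn0
    have e3 : n * r ^ 2 ≤ r0 ^ 2 := by
      rw [hr, div_pow, ← mul_div_assoc, div_le_iff₀ (by positivity)]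
      nlinarith [sq_nonneg r0, mul_nonneg hn0 (sq_nonneg r0), mul_nonneg (mul_nonneg hn0 hn0) (sq_nonneg r0)]
    have e4 : ‖C - k‖ ≤ r0 := by
      have h5 : ‖C - k‖ ^ 2 ≤ r0 ^ 2 := (norm_sq_le_hs _).trans (e1.trans (e2.trans e3))
      exact (sq_le_sq₀ (norm_nonneg _) hr0.le).1 h5
    have hgi := hK.iso g hg
    have e5 : ‖g * C - 1‖ ≤ r0 := by
      have : g * C - 1 = g * (C - k) := by rw [mul_sub, hgk]
      rw [this]
      exact (norm_mul_le' hgi _).trans e4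
    have e6 : ∀ κ ∈ K, hs (g * C) κ ≤ hs (g * C) 1 := by
      intro κ hκ
      have a1 : κ = g * (k * κ) := by rw [← mul_assoc, hgk, one_mul]
      have a2 : (1 : V →L[𝕜] V) = g * k := hgk.symm
      rw [a1, a2, hs_mul hgi, hs_mul hgi]
      exact hmax _ (hK.mul k hk κ hκ)
    have e7 := hQ (g * C) e5 e6 (g * κ) (hK.mul g hg κ hκ)
    have e8 : (1 : V →L[𝕜] V) - g * κ = g * (k - κ) := by rw [mul_sub, hgk]
    rw [e8, hs_mul hgi] at e7
    have e9 : ‖k - κ‖ ≤ ‖g * (k - κ)‖ := by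
      have : k - κ = k * (g * (k - κ)) := by rw [← mul_assoc, hkg, one_mul]
      conv_lhs => rw [this]
      exact norm_mul_le' (hK.iso k hk) _
    refine le_trans ?_ e7
    gcongr
  refine ⟨r, n / (2 * c), kh, hrpos, by positivity, fun C _ => khK C, ?_, ?_⟩
  · intro C C' hC hC'
    have h1 := key C hC (kh C) (khK C) (khm C) (kh C') (khK C')
    have h2 := key C' hC' (kh C') (khK C') (khm C') (kh C) (khK C)
    have h3 : hs C' (kh C' - kh C) = - hs C' (kh C - kh C') := by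
      rw [hs_sub_right, hs_sub_right]; ring
    rw [h3, norm_sub_rev] at h2
    have h4 : 2 * c * ‖kh C - kh C'‖ ^ 2 ≤ n * (‖C - C'‖ * ‖kh C - kh C'‖) := by
      have h5 : hs (C - C') (kh C - kh C') = hs C (kh C - kh C') - hs C' (kh C - kh C') :=
        hs_sub_left _ _ _
      have h6 := (le_abs_self _).trans (hs_abs_le (C - C') (kh C - kh C'))
      linarith
    rcases (norm_nonneg (kh C - kh C')).eq_or_lt with h0 | h0
    · rw [← h0]; positivity
    · rw [div_mul_eq_mul_div, le_div_iff₀ (by positivity)]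
      have h7 : (‖kh C - kh C'‖ * (2 * c)) * ‖kh C - kh C'‖ ≤ (n * ‖C - C'‖) * ‖kh C - kh C'‖ := by
        nlinarith
      exact le_of_mul_le_mul_right h7 h0
  · intro C hC g hg
    have hgC : Near K r (g * C) := by
      obtain ⟨κ0, hκ0, h⟩ := hC
      refine ⟨g * κ0, hK.mul g hg κ0 hκ0, ?_⟩
      rw [← mul_sub]
      exact (norm_mul_le' (hK.iso g hg) _).trans h
    have h1 := key (g * C) hgC (kh (g * C)) (khK _) (khm _) (g * kh C) (hK.mul g hg _ (khK C))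
    obtain ⟨g', hg', hg'g, hgg'⟩ := hK.inv g hg
    have h2 : hs (g * C) (kh (g * C)) ≤ hs (g * C) (g * kh C) := by
      have a1 : kh (g * C) = g * (g' * kh (g * C)) := by rw [← mul_assoc, hgg', one_mul]
      rw [a1, hs_mul (hK.iso g hg), hs_mul (hK.iso g hg)]
      exact khm C _ (hK.mul g' hg' _ (khK _))
    rw [hs_sub_right] at h1
    have h3 : c * ‖kh (g * C) - g * kh C‖ ^ 2 ≤ 0 := by linarith
    have h4 : ‖kh (g * C) - g * kh C‖ ^ 2 ≤ 0 := nonpos_of_mul_nonpos_right h3 hc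
    have h5 : ‖kh (g * C) - g * kh C‖ = 0 := by
      have := sq_nonneg ‖kh (g * C) - g * kh C‖
      exact pow_eq_zero_iff (two_ne_zero) |>.1 (le_antisymm h4 this)
    exact sub_eq_zero.1 (norm_eq_zero.1 h5)

end Pool.Agent.BAN.H37
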