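import Pool.Agent.Helper10_BAN.Stmt

/-!
Squad BAN, module PINV (helper37): the Lipschitz pseudoinverse.
-/

set_option autoImplicit false

namespace Pool.Agent.BAN.H37

open MeasureTheory Filter Topology Set Pool.Agent.BAN

section

variable {𝕜 : Type} [RCLike 𝕜] {V X : Type} [NormedAddCommGroup V] [InnerProductSpace 𝕜 V]
  [FiniteDimensional 𝕜 V] [NormedAddCommGroup X] [InnerProductSpace 𝕜 X]
  [FiniteDimensional 𝕜 X]

lemma exists_inv (S : V →L[𝕜] V) (d : ℝ) (hd : 0 < d) (hS : ∀ v, d * ‖v‖ ≤ ‖S v‖) :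
    ∃ T : V →L[𝕜] V, T * S = 1 ∧ S * T = 1 ∧ ‖T‖ ≤ d⁻¹ := by
  have hinj : Function.Injective (S : V →ₗ[𝕜] V) := by
    rw [← LinearMap.ker_eq_bot, LinearMap.ker_eq_bot']
    intro v hv
    have h := hS v
    have hv' : S v = 0 := hv
    rw [hv', norm_zero] at h
    have : ‖v‖ ≤ 0 := nonpos_of_mul_nonpos_right h hd
    exact norm_le_zero_iff.1 this
  set e : V ≃ₗ[𝕜] V := LinearEquiv.ofInjectiveEndo (S : V →ₗ[𝕜] V) hinj with he
  have heS : ∀ v, e v = S v := fun v => by rw [he]; rfl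
  refine ⟨LinearMap.toContinuousLinearMap (e.symm : V →ₗ[𝕜] V), ?_, ?_, ?_⟩
  · ext v
    show e.symm (S v) = v
    rw [← heS, LinearEquiv.symm_apply_apply]
  · ext v
    show S (e.symm v) = v
    rw [← heS, LinearEquiv.apply_symm_apply]
  · refine ContinuousLinearMap.opNorm_le_bound _ (by positivity) fun v => ?_
    show ‖e.symm v‖ ≤ d⁻¹ * ‖v‖
    have h := hS (e.symm v)
    rw [← heS, LinearEquiv.apply_symm_apply] at h
    rw [inv_mul_eq_div, le_div_iff₀ hd, mul_comm]
    exact h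

end

theorem pinv : PINVStmt := by
  intro 𝕜 _ V X _ _ _ _ _ _ c C hc
  have : CompleteSpace V := FiniteDimensional.complete 𝕜 V
  have : CompleteSpace X := FiniteDimensional.complete 𝕜 X
  -- the inverse of `A* A`
  have hex : ∀ A : V →L[𝕜] X, ∃ T : V →L[𝕜] V, (∀ v, c * ‖v‖ ≤ ‖A v‖) →
      T * ((ContinuousLinearMap.adjoint A).comp A) = 1 ∧
      ((ContinuousLinearMap.adjoint A).comp A) * T = 1 ∧ ‖T‖ ≤ (c ^ 2)⁻¹ := by
    intro A
    by_cases hA : ∀ v, c * ‖v‖ ≤ ‖A v‖
    · have h1 : ∀ v, c ^ 2 * ‖v‖ ≤ ‖((ContinuousLinearMap.adjoint A).comp A) v‖ := by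
        intro v
        have h2 : (c * ‖v‖) ^ 2 ≤ ‖A v‖ ^ 2 := by
          have h6 := hA v
          have h7 : 0 ≤ c * ‖v‖ := by positivity
          exact pow_le_pow_left₀ h7 h6 2
        have h3 : ‖A v‖ ^ 2 = RCLike.re (inner 𝕜 (((ContinuousLinearMap.adjoint A).comp A) v) v) := by
          rw [ContinuousLinearMap.comp_apply, ContinuousLinearMap.adjoint_inner_left,
            inner_self_eq_norm_sq]
        have h4 : RCLike.re (inner 𝕜 (((ContinuousLinearMap.adjoint A).comp A) v) v)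
            ≤ ‖((ContinuousLinearMap.adjoint A).comp A) v‖ * ‖v‖ := re_inner_le_norm _ _
        rcases (norm_nonneg v).eq_or_lt with h0 | h0
        · rw [← h0]; simp
        · have h5 : (c ^ 2 * ‖v‖) * ‖v‖ ≤ ‖((ContinuousLinearMap.adjoint A).comp A) v‖ * ‖v‖ := by
            nlinarith
          exact le_of_mul_le_mul_right h5 h0
      obtain ⟨T, h2, h3, h4⟩ := exists_inv _ (c ^ 2) (by positivity) h1
      exact ⟨T, fun _ => ⟨h2, h3, h4⟩⟩
    · exact ⟨0, fun h => absurd h hA⟩
  choose T hT using hex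
  set C' : ℝ := |C| with hC'
  have hC'0 : 0 ≤ C' := abs_nonneg _
  refine ⟨(c ^ 2)⁻¹ * C' + ((c ^ 2)⁻¹ + (c ^ 2)⁻¹ * (2 * C') * (c ^ 2)⁻¹ * C'),
    fun A => (T A).comp (ContinuousLinearMap.adjoint A), by positivity, ?_, ?_⟩
  · intro A hA hAC
    obtain ⟨h1, h2, h3⟩ := hT A hA
    have hAC' : ‖A‖ ≤ C' := hAC.trans (le_abs_self _)
    refine ⟨fun v => ?_, fun x hx => ?_, ?_⟩
    · have := congrArg (fun F : V →L[𝕜] V => F v) h1
      exact this
    · have h4 : ContinuousLinearMap.adjoint A x = 0 := by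
        refine ext_inner_left 𝕜 fun v => ?_
        rw [ContinuousLinearMap.adjoint_inner_right, hx v, inner_zero_right]
      show T A (ContinuousLinearMap.adjoint A x) = 0
      rw [h4, map_zero]
    · have h5 : ‖(T A).comp (ContinuousLinearMap.adjoint A)‖ ≤ (c ^ 2)⁻¹ * C' := by
        refine (ContinuousLinearMap.opNorm_comp_le _ _).trans ?_
        rw [LinearIsometryEquiv.norm_map]
        gcongr
      refine h5.trans (le_add_of_nonneg_right ?_)
      positivity
  · intro A B hA hAC hB hBC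
    obtain ⟨hA1, hA2, hA3⟩ := hT A hA
    obtain ⟨hB1, hB2, hB3⟩ := hT B hB
    have hAC' : ‖A‖ ≤ C' := hAC.trans (le_abs_self _)
    have hBC' : ‖B‖ ≤ C' := hBC.trans (le_abs_self _)
    set SA := (ContinuousLinearMap.adjoint A).comp A with hSA
    set SB := (ContinuousLinearMap.adjoint B).comp B with hSB
    have hadj : ‖ContinuousLinearMap.adjoint A - ContinuousLinearMap.adjoint B‖ = ‖A - B‖ := by
      rw [← map_sub, LinearIsometryEquiv.norm_map]
    have e1 : T A - T B = T A * (SB - SA) * T B := by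
      rw [mul_sub, sub_mul, mul_assoc (T A) SB (T B), hB2, mul_one, hA1, one_mul]
    have e2 : SB - SA = (ContinuousLinearMap.adjoint B).comp (B - A)
        + (ContinuousLinearMap.adjoint B - ContinuousLinearMap.adjoint A).comp A := by
      rw [hSA, hSB, ContinuousLinearMap.comp_sub, ContinuousLinearMap.sub_comp]
      abel
    have e3 : ‖SB - SA‖ ≤ 2 * C' * ‖A - B‖ := by
      rw [e2]
      refine (norm_add_le _ _).trans ?_
      have a1 : ‖(ContinuousLinearMap.adjoint B).comp (B - A)‖ ≤ C' * ‖A - B‖ := by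
        refine (ContinuousLinearMap.opNorm_comp_le _ _).trans ?_
        rw [LinearIsometryEquiv.norm_map, norm_sub_rev B A]
        gcongr
      have a2 : ‖(ContinuousLinearMap.adjoint B - ContinuousLinearMap.adjoint A).comp A‖
          ≤ ‖A - B‖ * C' := by
        refine (ContinuousLinearMap.opNorm_comp_le _ _).trans ?_
        rw [norm_sub_rev, hadj]
        gcongr
      linarith
    have e4 : ‖T A - T B‖ ≤ (c ^ 2)⁻¹ * (2 * C' * ‖A - B‖) * (c ^ 2)⁻¹ := by
      rw [e1]
      refine (norm_mul_le _ _).trans ?_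
      refine mul_le_mul ((norm_mul_le _ _).trans ?_) hB3 (norm_nonneg _) (by positivity)
      exact mul_le_mul hA3 e3 (norm_nonneg _) (by positivity)
    have e5 : (T A).comp (ContinuousLinearMap.adjoint A) - (T B).comp (ContinuousLinearMap.adjoint B)
        = (T A).comp (ContinuousLinearMap.adjoint A - ContinuousLinearMap.adjoint B)
          + (T A - T B).comp (ContinuousLinearMap.adjoint B) := by
      rw [ContinuousLinearMap.comp_sub, ContinuousLinearMap.sub_comp]
      abel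
    show ‖(T A).comp (ContinuousLinearMap.adjoint A) - (T B).comp (ContinuousLinearMap.adjoint B)‖ ≤ _
    rw [e5]
    refine (norm_add_le _ _).trans ?_
    have a1 : ‖(T A).comp (ContinuousLinearMap.adjoint A - ContinuousLinearMap.adjoint B)‖
        ≤ (c ^ 2)⁻¹ * ‖A - B‖ := by
      refine (ContinuousLinearMap.opNorm_comp_le _ _).trans ?_
      rw [hadj]
      gcongr
    have a2 : ‖(T A - T B).comp (ContinuousLinearMap.adjoint B)‖
        ≤ ((c ^ 2)⁻¹ * (2 * C' * ‖A - B‖) * (c ^ 2)⁻¹) * C' := by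
      refine (ContinuousLinearMap.opNorm_comp_le _ _).trans ?_
      rw [LinearIsometryEquiv.norm_map]
      exact mul_le_mul e4 hBC' (norm_nonneg _) (by positivity)
    have a3 : 0 ≤ (c ^ 2)⁻¹ * C' * ‖A - B‖ := by positivity
    calc _ ≤ (c ^ 2)⁻¹ * ‖A - B‖ + ((c ^ 2)⁻¹ * (2 * C' * ‖A - B‖) * (c ^ 2)⁻¹) * C' :=
          add_le_add a1 a2
      _ ≤ _ := by nlinarith

end Pool.Agent.BAN.H37
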